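import Pool.Agent.Helper89.UB.Stmts

set_option autoImplicit false

/-! (FIN) final segment: the sequence decreases for `m log n > 3 n`. -/

open Finset

namespace Pool.Agent.Helper89.UB

/-- numbers: the bound `D` for the closed blocks -/
theorem fin_D (n m L Δ M q : ℝ) (hL : 100 ≤ L) (hn : 0 < n) (hm : 3 * n < m * L)
    (hΔ : Δ ≤ 1 / 30000 * (n / L)) (hM : M ≤ 1 / 1000000000 * (n / L)) (hq : q ≤ n / (40 * L - 1)) :
    Δ + M + q ≤ 9 / 1000 * m := by
  have hL0 : 0 < L := by linarith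
  have h1 : n / (40 * L - 1) ≤ 251 / 10000 * (n / L) := by
    rw [div_le_iff₀ (by linarith)]
    have : 251 / 10000 * (n / L) * (40 * L - 1) = n * (251 / 10000 * (40 - 1 / L)) := by
      field_simp
    rw [this]
    have h2 : 1 / L ≤ 1 / 100 := by
      apply one_div_le_one_div_of_le <;> linarith
    nlinarith
  have h3 : n / L ≤ m / 3 := by
    rw [div_le_iff₀ hL0]
    linarith
  have h4 : 0 ≤ n / L := by positivity
  have h5 : 0 ≤ m := by linarith
  linarith

/-- numbers: the exponent -/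
theorem fin_exp (n m L D : ℝ) (hL : 100 ≤ L) (hn : 0 < n) (hm : 3 * n < m * L)
    (hD : D ≤ 9 / 1000 * m) : 2 * n / (m - D) ≤ 673 / 1000 * L := by
  have hL0 : 0 < L := by linarith
  have hm0 : 0 < m := by
    by_contra h
    push Not at h
    nlinarith
  rw [div_le_iff₀ (by linarith)]
  nlinarith

/-- numbers: `2 exp(0.673 L)` is at most `m` -/
theorem fin_big (m L : ℝ) (hL : 100 ≤ L) (hm : 3 * Real.exp L < m * L) :
    2 * Real.exp (673 / 1000 * L) ≤ m := by
  have hL0 : 0 < L := by linarith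
  have h1 : Real.exp L = Real.exp (673 / 1000 * L) * Real.exp (327 / 1000 * L) := by
    rw [← Real.exp_add]
    congr 1
    ring
  have h2 := Real.quadratic_le_exp_of_nonneg (x := 327 / 1000 * L) (by positivity)
  have h3 : 2 * L ≤ 3 * Real.exp (327 / 1000 * L) := by nlinarith
  have h4 := Real.exp_pos (673 / 1000 * L)
  by_contra h
  push Not at h
  have h5 : m * L < 2 * Real.exp (673 / 1000 * L) * L := mul_lt_mul_of_pos_right h hL0
  have h6 : Real.exp (673 / 1000 * L) * (2 * L) ≤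
      Real.exp (673 / 1000 * L) * (3 * Real.exp (327 / 1000 * L)) :=
    mul_le_mul_of_nonneg_left h3 h4.le
  rw [h1] at hm
  linarith

/-- numbers: most pairs can be merged -/
theorem fin_pairs (n m L r e M g : ℝ) (hL : 100 ≤ L) (hn : 0 < n) (hLn : L ≤ n) (hLn2 : L ^ 2 ≤ 2 * n)
    (hm : 3 * n < m * L) (hr : 40 * L ≤ r) (he : e ^ 2 ≤ 1 / 2000000000 * n ^ 3 / L ^ 2)
    (hM : M ≤ 1 / 1000000000 * (n / L))
    (hg : (m + 1) * m * r ≤ g * r + 2 * (e + M) * r + 4 * n * (m + 1)) :
    (m + 1) * m / 2 ≤ g := by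
  have hL0 : 0 < L := by linarith
  have hr0 : 0 < r := by linarith
  have hm0 : 0 < m := by
    by_contra h
    push Not at h
    nlinarith
  have h3 : 3 * (n / L) ≤ m := by
    have : n / L ≤ m / 3 := by
      rw [div_le_iff₀ hL0]
      linarith
    linarith
  have hx0 : 0 < n / L := by positivity
  have hx1 : 1 ≤ n / L := by
    rw [le_div_iff₀ hL0]
    linarith
  -- the square of the edge number
  have he2 : e ≤ 1 / 10 * (n / L) ^ 2 := by
    have h5 : 1 / 2000000000 * n ^ 3 / L ^ 2 ≤ (1 / 10 * (n / L) ^ 2) ^ 2 := by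
      have e1 : (1 / 10 * (n / L) ^ 2) ^ 2 = 1 / 100 * n ^ 3 / L ^ 2 * (n / L ^ 2) := by
        field_simp
        ring
      have e2 : 1 / 2 ≤ n / L ^ 2 := by
        rw [le_div_iff₀ (by positivity)]
        linarith
      rw [e1]
      have e3 : 0 ≤ 1 / 100 * n ^ 3 / L ^ 2 := by positivity
      have e4 : 1 / 2000000000 * n ^ 3 / L ^ 2 = 1 / 20000000 * (1 / 100 * n ^ 3 / L ^ 2) := by ring
      rw [e4]
      nlinarith
    exact le_of_sq_le_sq (le_trans he h5) (by positivity)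
  have hM2 : M ≤ 1 / 10 * (n / L) ^ 2 := by nlinarith
  have h6 : 9 * (n / L) ^ 2 ≤ m * m := by nlinarith
  have h7 : 4 * n * (m + 1) ≤ (m + 1) * m * r / 30 := by
    have : 4 * n ≤ m * r / 30 := by nlinarith
    nlinarith
  have h8 : 2 * (e + M) * r ≤ (m + 1) * m * r * (4 / 90) := by
    have : 2 * (e + M) ≤ (m + 1) * m * (4 / 90) := by nlinarith
    nlinarith
  have h9 : (m + 1) * m / 2 * r ≤ g * r := by nlinarith
  exact le_of_mul_le_mul_right h9 hr0

theorem st_FIN (hMRG : ST_MRG) (hEXP : ST_EXP) (hINB : ST_INB) (hMGL : ST_MGL) (hHND : ST_HND) :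
    ST_FIN := by
  classical
  obtain ⟨n₁, hn₁⟩ := hHND
  refine ⟨max n₁ (⌈Real.exp 100⌉₊), ?_⟩
  intro n hn E hE2 hdeg hmid m hm _
  have hn1 : n₁ ≤ n := le_trans (le_max_left _ _) hn
  have hnexp : Real.exp 100 ≤ (n : ℝ) :=
    le_trans (Nat.le_ceil _) (by exact_mod_cast le_trans (le_max_right _ _) hn)
  have hn0 : (0 : ℝ) < n := lt_of_lt_of_le (Real.exp_pos _) hnexp
  set L : ℝ := Real.log n with hLdef
  have hL : 100 ≤ L := by
    rw [hLdef, Real.le_log_iff_exp_le hn0]
    exact hnexp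
  have hL0 : 0 < L := by linarith
  have hexpL : Real.exp L = n := by rw [hLdef, Real.exp_log hn0]
  have hLn : L ≤ n := by
    have := Real.log_le_sub_one_of_pos hn0
    linarith
  have hLn2 : L ^ 2 ≤ 2 * n := by
    have := Real.quadratic_le_exp_of_nonneg (x := L) hL0.le
    rw [hexpL] at this
    nlinarith
  -- the two-element edges
  set E2 : Finset (Finset (Fin n)) := E.filter (fun e => e.card = 2) with hE2def
  have hdeg2 : ∀ v, deg2 E2 v = deg2 E v := by
    intro v
    unfold deg2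
    rw [hE2def, Finset.filter_filter]
    congr 1
    refine Finset.filter_congr ?_
    intro e _
    tauto
  obtain ⟨hA, hB⟩ := hn₁ n hn1 E2 (fun e he => (Finset.mem_filter.1 he).2) (by
    intro v
    rw [hdeg2 v]
    exact hdeg v)
  -- r, M, Δ, D
  set r : ℕ := ⌈40 * L⌉₊ with hr
  have hr40 : 40 * L ≤ (r : ℝ) := Nat.le_ceil _
  have hr2 : 2 ≤ r := by
    have : (2 : ℝ) ≤ r := by linarith
    exact_mod_cast this
  have hfil : ∀ e : Finset (Fin n), e.card < r ↔ (e.card : ℝ) < 40 * L := fun e => Nat.lt_ceil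
  set M : ℕ := (E.filter (fun e => 3 ≤ e.card ∧ e.card < r)).card with hMdef
  have hM : (M : ℝ) ≤ 1 / 1000000000 * (n / L) := by
    have : E.filter (fun e => 3 ≤ e.card ∧ e.card < r) =
        E.filter (fun e => 3 ≤ e.card ∧ (e.card : ℝ) < 40 * L) := by
      refine Finset.filter_congr ?_
      intro e _
      rw [hfil e]
    rw [hMdef, this]
    exact hmid
  set Δ : ℕ := ⌊1 / 30000 * ((n : ℝ) / L)⌋₊ with hΔdef
  have hΔ : (Δ : ℝ) ≤ 1 / 30000 * (n / L) := Nat.floor_le (by positivity)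
  have hdegΔ : ∀ v, deg2 E v ≤ Δ := by
    intro v
    rw [hΔdef]
    refine Nat.le_floor ?_
    rw [← hdeg2 v]
    exact hA v
  have hIns := hINB n Δ M r E hE2 hr2 hdegΔ le_rfl
  set D : ℕ := Δ + M + n / (r - 1) with hDdef
  have hq : ((n / (r - 1) : ℕ) : ℝ) ≤ n / (40 * L - 1) := by
    refine le_trans Nat.cast_div_le ?_
    have : ((r - 1 : ℕ) : ℝ) = (r : ℝ) - 1 := by
      rw [Nat.cast_sub (by omega)]
      simp
    rw [this]
    apply div_le_div_of_nonneg_left hn0.le <;> linarith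
  have hDm : (D : ℝ) ≤ 9 / 1000 * m := by
    rw [hDdef]
    push_cast
    exact fin_D n m L Δ M _ hL hn0 hm hΔ hM hq
  have hm0 : (0 : ℝ) < m := by
    by_contra h
    push Not at h
    nlinarith
  have hDlt : D < m := by
    have : (D : ℝ) < m := by linarith
    exact_mod_cast this
  have hexp := hEXP n D m E hIns hDlt
  have hexp2 : Real.exp (2 * n / ((m : ℝ) - D)) ≤ Real.exp (673 / 1000 * L) :=
    Real.exp_le_exp.2 (fin_exp n m L D hL hn0 hm hDm)
  -- pairs
  have hcard : (E.filter (fun e => e.card < r)).card ≤ E2.card + M := by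
    have : E.filter (fun e => e.card < r) ⊆ E2 ∪ E.filter (fun e => 3 ≤ e.card ∧ e.card < r) := by
      intro e he
      have h1 := Finset.mem_filter.1 he
      have h2 := hE2 e h1.1
      rcases Nat.lt_or_ge e.card 3 with h3 | h3
      · exact Finset.mem_union_left _ (Finset.mem_filter.2 ⟨h1.1, by omega⟩)
      · exact Finset.mem_union_right _ (Finset.mem_filter.2 ⟨h1.1, h3, h1.2⟩)
    exact le_trans (Finset.card_le_card this) (Finset.card_union_le _ _)
  have hpairs : ∀ c ∈ OP E univ (m + 1), ((m : ℝ) + 1) * m / 2 ≤ mg E c := by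
    intro c hc
    have h1 := hMGL n r (m + 1) E c hE2 (by omega) hc
    have h2 : (m + 1) * m * r ≤ mg E c * r + 2 * (E2.card + M) * r + 4 * n * (m + 1) := by
      have e1 : m + 1 - 1 = m := by omega
      rw [e1] at h1
      have h3 : 2 * (E.filter (fun e => e.card < r)).card * r ≤ 2 * (E2.card + M) * r :=
        Nat.mul_le_mul_right _ (Nat.mul_le_mul_left _ hcard)
      omega
    have h4 : ((m : ℝ) + 1) * m * r ≤ (mg E c : ℝ) * r + 2 * ((E2.card : ℝ) + M) * r +
        4 * n * ((m : ℝ) + 1) := by exact_mod_cast h2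
    exact fin_pairs n m L r E2.card M (mg E c) hL hn0 hLn hLn2 hm hr40 hB hM h4
  -- double counting
  have hmrg := hMRG n E m
  have hS : ((∑ c ∈ OP E univ m, ∑ i, (2 ^ (c i).card - 2) : ℕ) : ℝ) ≤
      sur E univ m * (m * Real.exp (673 / 1000 * L)) := by
    have h1 : (∑ c ∈ OP E univ m, ∑ i, (2 ^ (c i).card - 2) : ℕ) ≤
        ∑ c ∈ OP E univ m, ∑ i, 2 ^ (c i).card :=
      Finset.sum_le_sum fun c _ => Finset.sum_le_sum fun i _ => Nat.sub_le _ _
    have h2 : ((∑ c ∈ OP E univ m, ∑ i, (2 ^ (c i).card - 2) : ℕ) : ℝ) ≤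
        ((∑ c ∈ OP E univ m, ∑ i, 2 ^ (c i).card : ℕ) : ℝ) := by exact_mod_cast h1
    refine le_trans h2 (le_trans hexp ?_)
    have := mul_le_mul_of_nonneg_left hexp2 hm0.le
    exact mul_le_mul_of_nonneg_left this (Nat.cast_nonneg _)
  have hT : (sur E univ (m + 1) : ℝ) * (((m : ℝ) + 1) * m / 2) ≤
      ((∑ c ∈ OP E univ (m + 1), mg E c : ℕ) : ℝ) := by
    push_cast
    unfold sur
    rw [← nsmul_eq_mul]
    exact Finset.card_nsmul_le_sum _ _ _ hpairs
  rw [hmrg] at hT
  push_cast at hT hS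
  have hbig := fin_big m L hL (by rw [hexpL]; exact hm)
  have h10 : (sur E univ (m + 1) : ℝ) * (((m : ℝ) + 1) * m / 2) ≤
      ((m : ℝ) + 1) * (sur E univ m * (m * Real.exp (673 / 1000 * L))) :=
    le_trans hT (mul_le_mul_of_nonneg_left hS (by positivity))
  have h11 : (sur E univ (m + 1) : ℝ) ≤ 2 * Real.exp (673 / 1000 * L) * sur E univ m := by
    have hpos : (0 : ℝ) < ((m : ℝ) + 1) * m / 2 := by positivity
    refine le_of_mul_le_mul_right (le_trans h10 (le_of_eq ?_)) hpos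
    ring
  have h12 : (sur E univ (m + 1) : ℝ) ≤ ((m : ℝ) + 1) * sur E univ m := by
    refine le_trans h11 (mul_le_mul_of_nonneg_right ?_ (Nat.cast_nonneg _))
    linarith
  exact_mod_cast h12

end Pool.Agent.Helper89.UB
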