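import Pool.Agent.Helper89.UB.Stmts

set_option autoImplicit false

/-! (SD3) tails of the integrand. -/

open Finset

namespace Pool.Agent.Helper89.UB

theorem sd3_norm_zt (ρ t : ℝ) (hρ : 0 ≤ ρ) : ‖zt ρ t‖ = ρ := by
  unfold zt
  rw [norm_mul, Complex.norm_exp_ofReal_mul_I, mul_one, Complex.norm_real, Real.norm_eq_abs,
    abs_of_nonneg hρ]

theorem sd3_re_zt (ρ t : ℝ) : (zt ρ t).re = ρ * Real.cos t := by
  unfold zt
  rw [Complex.re_ofReal_mul, Complex.exp_ofReal_mul_I_re]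

theorem sd3_wk (n k : ℕ) (a ρ : ℝ) (q : ℂ → ℂ) (t : ℝ) (F Q : ℝ)
    (hF : ‖(Complex.exp (zt ρ t) - 1) / (Complex.exp (ρ : ℂ) - 1)‖ ≤ Real.exp (-F))
    (hQ : ‖q (zt ρ t)‖ ≤ Q) :
    ‖wk n k a ρ q t‖ ≤ Q * Real.exp (-(k * F) + a * ρ * (1 - Real.cos t)) := by
  unfold wk
  rw [norm_mul, norm_mul, norm_mul, norm_pow]
  have h1 : ‖Complex.exp (-((n : ℂ) * t * Complex.I))‖ = 1 := by
    rw [Complex.norm_exp]
    have : (-((n : ℂ) * t * Complex.I)).re = 0 := by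
      simp [Complex.mul_re]
    rw [this, Real.exp_zero]
  have h2 : ‖Complex.exp (-(a : ℂ) * (zt ρ t - ρ))‖ = Real.exp (a * ρ * (1 - Real.cos t)) := by
    rw [Complex.norm_exp]
    congr 1
    have : (-(a : ℂ) * (zt ρ t - ρ)).re = -a * ((zt ρ t).re - ρ) := by
      rw [← Complex.ofReal_neg, Complex.re_ofReal_mul, Complex.sub_re, Complex.ofReal_re]
    rw [this, sd3_re_zt]
    ring
  have h3 : ‖(Complex.exp (zt ρ t) - 1) / (Complex.exp (ρ : ℂ) - 1)‖ ^ k ≤ Real.exp (-(k * F)) := by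
    calc _ ≤ (Real.exp (-F)) ^ k := pow_le_pow_left₀ (norm_nonneg _) hF k
      _ = Real.exp (-(k * F)) := by
        rw [← Real.exp_nat_mul]
        congr 1
        ring
  rw [h1, h2, mul_one, Real.exp_add]
  calc _ ≤ Real.exp (-(k * F)) * Real.exp (a * ρ * (1 - Real.cos t)) * Q := by
        refine mul_le_mul (mul_le_mul_of_nonneg_right h3 (Real.exp_pos _).le) hQ (norm_nonneg _) ?_
        positivity
    _ = _ := by ring

theorem sd3_num (n m k L a ρ s t c : ℝ) (hL : 300 ≤ L) (hs : s = Real.exp (L / 2)) (hn : n = s ^ 2)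
    (ha : 0 ≤ a) (ha' : a ≤ s) (hρ1 : L / 7 ≤ ρ) (hρ2 : ρ ≤ 1.5 * L)
    (hsad : m * (ρ / (1 - Real.exp (-ρ))) - a * ρ = n) (hk : m - 1 ≤ k)
    (ht : |t| ≤ Real.pi) (hc : c = Real.cos t) :
    -(k * (ρ * (1 - c) / 8)) + a * ρ * (1 - c) ≤ -(n * t ^ 2 / 50) := by
  have hρ0 : 0 < ρ := by linarith
  have hs0 : 0 < s := by rw [hs]; exact Real.exp_pos _
  have hn0 : 0 < n := by rw [hn]; positivity
  -- the exponential is small
  have he : Real.exp (-ρ) ≤ 1 / 1000 := by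
    have h1 := Real.pow_div_factorial_le_exp ρ hρ0.le 2
    have h2 : (1000 : ℝ) ≤ Real.exp ρ := by
      have h3 : (42 : ℝ) ≤ ρ := by linarith
      have h4 : ρ ^ 2 / (Nat.factorial 2 : ℝ) ≤ Real.exp ρ := h1
      have h5 := Real.pow_div_factorial_le_exp ρ hρ0.le 3
      have h6 : ((Nat.factorial 3 : ℕ) : ℝ) = 6 := by norm_num [Nat.factorial]
      rw [h6] at h5
      nlinarith [mul_pos hρ0 hρ0]
    rw [Real.exp_neg, ← one_div]
    exact one_div_le_one_div_of_le (by norm_num) h2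
  have he0 := Real.exp_pos (-ρ)
  -- saddle point equation
  have hmρ : m * ρ = (n + a * ρ) * (1 - Real.exp (-ρ)) := by
    have h1 : (1 - Real.exp (-ρ)) ≠ 0 := by
      have : 0 < 1 - Real.exp (-ρ) := by linarith
      exact this.ne'
    have h2 : m * (ρ / (1 - Real.exp (-ρ))) = n + a * ρ := by linarith
    rw [← h2]
    field_simp
  have haρ : 0 ≤ a * ρ := by positivity
  have hm1 : 999 / 1000 * n ≤ m * ρ := by
    rw [hmρ]
    have h1 : 999 / 1000 ≤ 1 - Real.exp (-ρ) := by linarith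
    nlinarith
  -- s is large
  have hsL : L * 1800 ≤ s := by
    have h1 := Real.pow_div_factorial_le_exp (L / 2) (by linarith) 3
    have h6 : ((Nat.factorial 3 : ℕ) : ℝ) = 6 := by norm_num [Nat.factorial]
    rw [h6] at h1
    rw [hs]
    have h2 : L * 1800 ≤ (L / 2) ^ 3 / 6 := by
      have h3 : 90000 ≤ L ^ 2 := by nlinarith
      nlinarith
    linarith
  have hkρ : 999 / 1000 * n - 1.5 * L ≤ k * ρ := by nlinarith
  have haρ2 : a * ρ ≤ n / 1200 := by
    have h1 : a * ρ ≤ s * (1.5 * L) := mul_le_mul ha' hρ2 hρ0.le hs0.le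
    have h2 : s * (1.5 * L) ≤ n / 1200 := by
      rw [hn]
      nlinarith
    linarith
  have hLn : 1.5 * L ≤ n / 1200 := by
    rw [hn]
    nlinarith
  have hmain : 12 / 100 * n ≤ k * ρ / 8 - a * ρ := by linarith
  -- the cosine
  have hcos : 1 - c ≥ 2 / Real.pi ^ 2 * t ^ 2 := by
    have := Real.cos_le_one_sub_mul_cos_sq ht
    rw [hc]
    linarith
  have hpi : (1 : ℝ) / 5 ≤ 2 / Real.pi ^ 2 := by
    rw [div_le_div_iff₀ (by norm_num) (by positivity)]
    have := Real.pi_lt_d2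
    have := Real.pi_pos
    nlinarith
  have ht2 : 0 ≤ t ^ 2 := sq_nonneg t
  have h1c : 1 / 5 * t ^ 2 ≤ 1 - c := by nlinarith
  have h1 : 12 / 100 * n * (1 / 5 * t ^ 2) ≤ (k * ρ / 8 - a * ρ) * (1 - c) :=
    mul_le_mul hmain h1c (by positivity) (by linarith)
  nlinarith [mul_nonneg hn0.le ht2]

theorem st_SD3 (hSD2 : ST_SD2) : ST_SD3 := by
  refine ⟨⌈Real.exp 300⌉₊, ?_⟩
  intro n hn m _ _ a ha ha' ρ hρ1 hρ2 hsad q hq k hk t ht
  have hnexp : Real.exp 300 ≤ (n : ℝ) := le_trans (Nat.le_ceil _) (by exact_mod_cast hn)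
  have hn0 : (0 : ℝ) < n := lt_of_lt_of_le (Real.exp_pos _) hnexp
  have hL : 300 ≤ Real.log n := by
    rw [Real.le_log_iff_exp_le hn0]
    exact hnexp
  have hρ0 : 0 < ρ := by linarith
  have hs : Real.sqrt n = Real.exp (Real.log n / 2) := by
    rw [Real.exp_half, Real.exp_log hn0]
  have hz : ‖q (zt ρ t)‖ ≤ 1.01 := by
    have h1 := hq (zt ρ t) (by
      rw [sd3_norm_zt ρ t hρ0.le]
      linarith)
    have h2 : ‖q (zt ρ t)‖ ≤ ‖q (zt ρ t) - 1‖ + ‖(1 : ℂ)‖ := by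
      have := norm_add_le (q (zt ρ t) - 1) 1
      rwa [sub_add_cancel] at this
    rw [norm_one] at h2
    linarith
  have h3 := sd3_wk n k a ρ q t (ρ * (1 - Real.cos t) / 8) 1.01
    (hSD2 ρ t (by linarith)) hz
  refine le_trans h3 (mul_le_mul_of_nonneg_left (Real.exp_le_exp.2 ?_) (by norm_num))
  have hk' : (m : ℝ) - 1 ≤ k := by
    have : m ≤ k + 1 := by omega
    have : (m : ℝ) ≤ k + 1 := by exact_mod_cast this
    linarith
  exact sd3_num n m k (Real.log n) a ρ (Real.sqrt n) t (Real.cos t) hL hs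
    (Real.sq_sqrt hn0.le).symm ha ha' hρ1 hρ2 hsad hk' ht rfl

end Pool.Agent.Helper89.UB
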